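import Pool.Agent.TH281.Mor.Fin

/-!
# Morrey's problem for additively separable functions on real `2 × 2` matrices

Two classes of functions without any symmetry assumption on which rank-one convexity implies
polyconvexity (`W - c det` is convex for a constant `c`), hence quasiconvexity:

(1) a quadratic form plus a sum of four arbitrary functions of one real variable, evaluated at any
    four linearly independent linear functionals;
(2) the sum of an arbitrary function of the conformal part and an arbitrary function of the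
    anticonformal part, also after a change of variables `A ↦ P A Q`.
-/

set_option autoImplicit false

namespace Pool.Agent.Results.MP_515557_an.SeparableClass

/-- `W` is rank-one convex. -/
def RankOneConvex (W : Matrix (Fin 2) (Fin 2) ℝ → ℝ) : Prop :=
  ∀ F H : Matrix (Fin 2) (Fin 2) ℝ, H.rank = 1 → ∀ t : ℝ, 0 ≤ t → t ≤ 1 →
    W ((1 - t) • F + t • (F + H)) ≤ (1 - t) * W F + t * W (F + H)

/-- `W` is quasiconvex: `W F₀ * |Ω| ≤ ∫_Ω W (F₀ + Dϑ)` for all `F₀`, all bounded open `Ω` and all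
Lipschitz maps `ϑ` vanishing off `Ω`. -/
def Quasiconvex (W : Matrix (Fin 2) (Fin 2) ℝ → ℝ) : Prop :=
  ∀ F₀ : Matrix (Fin 2) (Fin 2) ℝ, ∀ Ω : Set (Fin 2 → ℝ), IsOpen Ω → Bornology.IsBounded Ω →
    ∀ ϑ : (Fin 2 → ℝ) → (Fin 2 → ℝ), (∃ K, LipschitzWith K ϑ) → (∀ x, x ∉ Ω → ϑ x = 0) →
      W F₀ * (MeasureTheory.volume Ω).toReal ≤
        ∫ x in Ω, W (F₀ + LinearMap.toMatrix'
          ((fderiv ℝ ϑ x : (Fin 2 → ℝ) →L[ℝ] (Fin 2 → ℝ)) : (Fin 2 → ℝ) →ₗ[ℝ] (Fin 2 → ℝ)))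

/-- `W (A) = B (A, A) + g₁ (ℓ₁ A) + g₂ (ℓ₂ A) + g₃ (ℓ₃ A) + g₄ (ℓ₄ A)` with `B` bilinear, linearly
independent linear functionals `ℓ₁, …, ℓ₄` and arbitrary functions `g₁, …, g₄` of one variable. -/
def QuadraticPlusSeparable (W : Matrix (Fin 2) (Fin 2) ℝ → ℝ) : Prop :=
  ∃ (B : Matrix (Fin 2) (Fin 2) ℝ →ₗ[ℝ] Matrix (Fin 2) (Fin 2) ℝ →ₗ[ℝ] ℝ)
    (ℓ : Fin 4 → (Matrix (Fin 2) (Fin 2) ℝ →ₗ[ℝ] ℝ)) (g : Fin 4 → ℝ → ℝ),
    LinearIndependent ℝ ℓ ∧ ∀ A, W A = B A A + ∑ i, g i (ℓ i A)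

/-- `W (P A Q)` is the sum of a function `a` of the conformal part
`(A₁₁ + A₂₂, A₂₁ - A₁₂)` of `A` and a function `b` of the anticonformal part
`(A₁₁ - A₂₂, A₂₁ + A₁₂)` of `A`, for some invertible `P, Q` and arbitrary functions `a, b` of two
variables. -/
def ConformalPlusAnticonformal (W : Matrix (Fin 2) (Fin 2) ℝ → ℝ) : Prop :=
  ∃ (P Q : Matrix (Fin 2) (Fin 2) ℝ) (a b : ℝ → ℝ → ℝ), P.det ≠ 0 ∧ Q.det ≠ 0 ∧
    ∀ A : Matrix (Fin 2) (Fin 2) ℝ, W (P * A * Q) =
      a (A 0 0 + A 1 1) (A 1 0 - A 0 1) + b (A 0 0 - A 1 1) (A 1 0 + A 0 1)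

/-- Let `W` be a rank-one convex function of a real `2 × 2` matrix which belongs to one of the two
classes.  Then `W - c det` is convex for some real `c` (so `W` is polyconvex), and `W` is
quasiconvex. -/
theorem result (W : Matrix (Fin 2) (Fin 2) ℝ → ℝ) (hW : RankOneConvex W)
    (h : QuadraticPlusSeparable W ∨ ConformalPlusAnticonformal W) :
    (∃ c : ℝ, ConvexOn ℝ Set.univ (fun A => W A - c * A.det)) ∧ Quasiconvex W := by
  have hW' : Pool.Agent.Helper188.Morrey.RankOneConvex W := hW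
  have hWc : Continuous W := Pool.Agent.Helper188.Morrey.RankOneConvex.continuous hW'
  have hc : ∃ c : ℝ, ∀ A H, 2 * c * H.det ≤ Pool.Agent.TH281.Mor.D2 W A H := by
    rcases h with ⟨B, ℓ, g, hℓ, hg⟩ | ⟨P, Q, a, b, hP, hQ, hab⟩
    · exact Pool.Agent.TH281.Mor.sep_c hℓ B g W hg hW'
    · refine Pool.Agent.TH281.Mor.transfer hP hQ ?_
      refine Pool.Agent.TH281.Mor.plane_c a b (fun A => W (P * A * Q)) hab ?_
      intro F H hH t ht0 ht1
      have h1 := hW' (P * F * Q) (P * H * Q)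
        (by rw [Pool.Agent.TH281.Mor.rank_mul_mul P Q H hP hQ]; exact hH) t ht0 ht1
      have e1 : P * ((1 - t) • F + t • (F + H)) * Q
          = (1 - t) • (P * F * Q) + t • (P * F * Q + P * H * Q) := by
        simp only [Matrix.mul_add, Matrix.add_mul, Matrix.mul_smul, Matrix.smul_mul]
      have e2 : P * (F + H) * Q = P * F * Q + P * H * Q := by
        simp only [Matrix.mul_add, Matrix.add_mul]
      simp only [e1, e2]
      exact h1
  obtain ⟨c, hc⟩ := hc
  obtain ⟨h1, h2⟩ := Pool.Agent.TH281.Mor.final hWc hc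
  exact ⟨⟨c, h1⟩, h2⟩

end Pool.Agent.Results.MP_515557_an.SeparableClass
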