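import Pool.Agent.TH594.MG.All

/-!
# Morrey's problem for planar energies with a volumetric-isochoric split

Let `W` be an energy on the real `2 × 2` matrices of positive determinant of the form
`W(F) = h(σ₁/σ₂) + f(det F)`, where `σ₁ ≥ σ₂ > 0` are the singular values of `F` and `h`, `f` are
twice continuously differentiable.  If `W` is rank-one convex, then `W` is quasiconvex.
-/

set_option autoImplicit false

namespace Pool.Agent.Results.MP_515557_an.VolumetricIsochoric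

open MeasureTheory
open scoped Matrix.Norms.L2Operator

/-- the Jacobian matrix of `ϑ` at `x` -/
noncomputable def Jac (ϑ : (Fin 2 → ℝ) → (Fin 2 → ℝ)) (x : Fin 2 → ℝ) :
    Matrix (Fin 2) (Fin 2) ℝ :=
  LinearMap.toMatrix' ((fderiv ℝ ϑ x : (Fin 2 → ℝ) →L[ℝ] (Fin 2 → ℝ)) :
    (Fin 2 → ℝ) →ₗ[ℝ] (Fin 2 → ℝ))

/-- The admissible perturbations `ϑ` of the linear map `x ↦ F₀ x` in `Ω`: Lipschitz maps of the
plane that vanish outside `Ω`, such that either `ϑ` is continuously differentiable and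
`u(x) = F₀ x + ϑ(x)` has positive Jacobian determinant everywhere, or `u` has a Lipschitz
inverse and positive Jacobian determinant almost everywhere. -/
def Admissible (F₀ : Matrix (Fin 2) (Fin 2) ℝ) (Ω : Set (Fin 2 → ℝ))
    (ϑ : (Fin 2 → ℝ) → (Fin 2 → ℝ)) : Prop :=
  (∃ K, LipschitzWith K ϑ) ∧ (∀ x, x ∉ Ω → ϑ x = 0) ∧
    ((ContDiff ℝ 1 ϑ ∧ ∀ x, 0 < (F₀ + Jac ϑ x).det) ∨
      ((∃ (K : NNReal) (v : (Fin 2 → ℝ) → (Fin 2 → ℝ)), LipschitzWith K v ∧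
          Function.LeftInverse v (fun x => F₀.mulVec x + ϑ x) ∧
          Function.RightInverse v (fun x => F₀.mulVec x + ϑ x)) ∧
        ∀ᵐ x : Fin 2 → ℝ, 0 < (F₀ + Jac ϑ x).det))

/-- quasiconvexity on the matrices of positive determinant -/
def QuasiconvexPos (W : Matrix (Fin 2) (Fin 2) ℝ → ℝ) : Prop :=
  ∀ F₀ : Matrix (Fin 2) (Fin 2) ℝ, 0 < F₀.det → ∀ Ω : Set (Fin 2 → ℝ),
    IsOpen Ω → Bornology.IsBounded Ω → ∀ ϑ : (Fin 2 → ℝ) → (Fin 2 → ℝ), Admissible F₀ Ω ϑ →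
      IntegrableOn (fun x => W (F₀ + Jac ϑ x)) Ω ∧
        W F₀ * (volume Ω).toReal ≤ ∫ x in Ω, W (F₀ + Jac ϑ x)

/-- rank-one convexity on the matrices of positive determinant -/
def RankOneConvexPos (W : Matrix (Fin 2) (Fin 2) ℝ → ℝ) : Prop :=
  ∀ F H : Matrix (Fin 2) (Fin 2) ℝ, H.rank = 1 → 0 < F.det → 0 < (F + H).det →
    ∀ t : ℝ, 0 ≤ t → t ≤ 1 →
      W ((1 - t) • F + t • (F + H)) ≤ (1 - t) * W F + t * W (F + H)

lemma hom {F₀ : Matrix (Fin 2) (Fin 2) ℝ} {Ω : Set (Fin 2 → ℝ)}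
    {ϑ : (Fin 2 → ℝ) → (Fin 2 → ℝ)} (hF : 0 < F₀.det) (ho : IsOpen Ω)
    (hb : Bornology.IsBounded Ω) (ha : Admissible F₀ Ω ϑ) :
    ∃ (v : (Fin 2 → ℝ) → (Fin 2 → ℝ)) (K K' : NNReal),
      Pool.Agent.TH594.MG.Hom F₀ Ω ϑ v K K' := by
  obtain ⟨⟨K, hK⟩, h0, h1 | ⟨⟨K', v, hv, hl, hr⟩, hd⟩⟩ := ha
  · exact Pool.Agent.TH594.MG.hom_of_c1 hF ho hb h1.1 h0 h1.2
  · exact ⟨v, K, K', ⟨hF, ho, hb, hK, h0, hv, hl, hr, hd⟩⟩

/-- Every rank-one convex energy `W(F) = h(σ₁/σ₂) + f(det F)`, `h` and `f` twice continuously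
differentiable, on the `2 × 2` matrices of positive determinant is quasiconvex (note that
`σ₁/σ₂ = ‖F‖² / det F` for the operator norm `‖F‖ = σ₁`). -/
theorem result :
    ∀ (h f : ℝ → ℝ) (W : Matrix (Fin 2) (Fin 2) ℝ → ℝ),
      ContDiffOn ℝ 2 h (Set.Ici 1) → ContDiffOn ℝ 2 f (Set.Ioi 0) →
      (∀ A : Matrix (Fin 2) (Fin 2) ℝ, 0 < A.det → W A = h (‖A‖ ^ 2 / A.det) + f A.det) →
      RankOneConvexPos W → QuasiconvexPos W := by
  intro h f W hh hf hW hR F₀ hF Ω ho hb ϑ ha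
  obtain ⟨v, K, K', hH⟩ := hom hF ho hb ha
  exact Pool.Agent.TH594.MG.full hh hf hW hR hH

/-- Not part of the hand-in: the function `σ₁/σ₂ + 2 log σ₂` is quasiconvex (without using that
it is rank-one convex). -/
theorem magic_quasiconvex :
    QuasiconvexPos (fun A => ‖A‖ ^ 2 / A.det + 2 * Real.log (A.det / ‖A‖)) := by
  intro F₀ hF Ω ho hb ϑ ha
  obtain ⟨v, K, K', hH⟩ := hom hF ho hb ha
  exact Pool.Agent.TH594.MG.magic hH

end Pool.Agent.Results.MP_515557_an.VolumetricIsochoric
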